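import Pool.Agent.Lib.MP_3ee548_nt.RS.Iface

/-!
# Module WB of the RS board: size plus variation of the dual weight on a dyadic block
-/

set_option autoImplicit false

open scoped BigOperators

namespace Pool.Agent.Lib.MP_3ee548_nt.RS.H84

theorem norm_e (x : ℝ) : ‖e x‖ = 1 := by
  unfold e
  exact Complex.norm_exp_ofReal_mul_I _

theorem e_add (x y : ℝ) : e (x + y) = e x * e y := by
  unfold e
  rw [← Complex.exp_add]
  congr 1
  push_cast
  ring

theorem norm_e_sub_le (x y : ℝ) : ‖e x - e y‖ ≤ 2 * Real.pi * |x - y| := by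
  have h1 : e x - e y = e y * (e (x - y) - 1) := by
    have h2 : e x = e y * e (x - y) := by
      rw [← e_add]; congr 1; ring
    rw [h2]; ring
  rw [h1, norm_mul, norm_e, one_mul]
  have h3 : e (x - y) = Complex.exp (Complex.I * ((2 * Real.pi * (x - y) : ℝ) : ℂ)) := by
    unfold e
    rw [mul_comm]
  rw [h3]
  have h4 := Real.norm_exp_I_mul_ofReal_sub_one_le (x := 2 * Real.pi * (x - y))
  refine h4.trans (le_of_eq ?_)
  rw [Real.norm_eq_abs, abs_mul, abs_of_pos (by positivity : (0 : ℝ) < 2 * Real.pi)]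

theorem exp_diff_le (x y A : ℝ) (hx : Real.exp x ≤ A) (hy : Real.exp y ≤ A) :
    |Real.exp x - Real.exp y| ≤ A * |x - y| := by
  have key : ∀ u v : ℝ, Real.exp u ≤ A → Real.exp u - Real.exp v ≤ A * |u - v| := by
    intro u v hu
    have h1 : 1 + (v - u) ≤ Real.exp (v - u) := by
      have := Real.add_one_le_exp (v - u); linarith
    have h2 : Real.exp v = Real.exp u * Real.exp (v - u) := by
      rw [← Real.exp_add]; congr 1; ring
    have h3 : Real.exp u - Real.exp v ≤ Real.exp u * (u - v) := by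
      rw [h2]
      nlinarith [Real.exp_pos u]
    have h4 : Real.exp u * (u - v) ≤ Real.exp u * |u - v| :=
      mul_le_mul_of_nonneg_left (le_abs_self _) (Real.exp_pos u).le
    have h5 : Real.exp u * |u - v| ≤ A * |u - v| :=
      mul_le_mul_of_nonneg_right hu (abs_nonneg _)
    linarith
  rw [abs_le]
  constructor
  · have := key y x hy
    rw [abs_sub_comm] at this
    linarith
  · exact key x y hx

/-- telescoping majorant of the variation. -/
theorem sum_var_le (g : ℕ → ℂ) (G : ℕ → ℝ) (a b : ℕ) (hab : a ≤ b)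
    (h : ∀ m, a ≤ m → m < b → ‖g (m + 1) - g m‖ ≤ G (m + 1) - G m) :
    ∑ m ∈ Finset.Ico a b, ‖g (m + 1) - g m‖ ≤ G b - G a := by
  induction b, hab using Nat.le_induction with
  | base => simp
  | succ b hab ih =>
    rw [Finset.sum_Ico_succ_top hab]
    have h1 := ih (fun m h1 h2 => h m h1 (by omega))
    have h2 := h b hab (by omega)
    linarith

/-- one step. -/
theorem step_le (A z1 z2 p1 p2 q1 q2 r1 r2 : ℝ) (hz1 : 0 < z1) (hz : z1 ≤ z2)
    (hp : p1 ≤ p2) (hq : q2 ≤ q1) (hr : r2 ≤ r1)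
    (hA1 : h0 z1 ≤ A) (hA2 : h0 z2 ≤ A) :
    ‖((h0 z2 : ℝ) : ℂ) * e ((p2 + q2 - r2) / 2) - ((h0 z1 : ℝ) : ℂ) * e ((p1 + q1 - r1) / 2)‖
      ≤ Real.pi * A * (z2 - 1 / z2 + p2 - q2 - r2) - Real.pi * A * (z1 - 1 / z1 + p1 - q1 - r1) := by
  have hpi := Real.pi_pos
  have hA : 0 ≤ A := (Real.exp_pos _).le.trans hA1
  have hz2 : 0 < z2 := lt_of_lt_of_le hz1 hz
  have hinv : 1 / z2 ≤ 1 / z1 := one_div_le_one_div_of_le hz1 hz
  have h1 : ((h0 z2 : ℝ) : ℂ) * e ((p2 + q2 - r2) / 2) - ((h0 z1 : ℝ) : ℂ) * e ((p1 + q1 - r1) / 2)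
      = ((h0 z2 - h0 z1 : ℝ) : ℂ) * e ((p2 + q2 - r2) / 2)
        + ((h0 z1 : ℝ) : ℂ) * (e ((p2 + q2 - r2) / 2) - e ((p1 + q1 - r1) / 2)) := by
    push_cast
    ring
  rw [h1]
  refine (norm_add_le _ _).trans ?_
  rw [norm_mul, norm_mul, norm_e, mul_one, Complex.norm_real, Complex.norm_real,
    Real.norm_eq_abs, Real.norm_eq_abs]
  have h2 : |h0 z2 - h0 z1| ≤ A * (Real.pi * ((z2 - z1) + (1 / z1 - 1 / z2))) := by
    have h3 := exp_diff_le (-Real.pi * (z2 + 1 / z2)) (-Real.pi * (z1 + 1 / z1)) A hA2 hA1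
    have h4 : |-Real.pi * (z2 + 1 / z2) - -Real.pi * (z1 + 1 / z1)|
        ≤ Real.pi * ((z2 - z1) + (1 / z1 - 1 / z2)) := by
      have h5 : -Real.pi * (z2 + 1 / z2) - -Real.pi * (z1 + 1 / z1)
          = Real.pi * ((1 / z1 - 1 / z2) - (z2 - z1)) := by ring
      rw [h5, abs_mul, abs_of_pos hpi]
      refine mul_le_mul_of_nonneg_left ?_ hpi.le
      rw [abs_le]
      constructor <;> linarith
    exact h3.trans (mul_le_mul_of_nonneg_left h4 hA)
  have h6 : |h0 z1| ≤ A := by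
    rw [abs_of_pos (show 0 < h0 z1 from Real.exp_pos _)]
    exact hA1
  have h7 : ‖e ((p2 + q2 - r2) / 2) - e ((p1 + q1 - r1) / 2)‖
      ≤ Real.pi * ((p2 - p1) + (q1 - q2) + (r1 - r2)) := by
    refine (norm_e_sub_le _ _).trans ?_
    have h8 : |(p2 + q2 - r2) / 2 - (p1 + q1 - r1) / 2|
        ≤ ((p2 - p1) + (q1 - q2) + (r1 - r2)) / 2 := by
      rw [abs_le]
      constructor <;> linarith
    have h9 := mul_le_mul_of_nonneg_left h8 (by positivity : (0 : ℝ) ≤ 2 * Real.pi)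
    refine h9.trans (le_of_eq (by ring))
  have h10 : |h0 z1| * ‖e ((p2 + q2 - r2) / 2) - e ((p1 + q1 - r1) / 2)‖
      ≤ A * (Real.pi * ((p2 - p1) + (q1 - q2) + (r1 - r2))) :=
    mul_le_mul h6 h7 (norm_nonneg _) hA
  refine (add_le_add h2 h10).trans (le_of_eq (by ring))

theorem zexp_le (z : ℝ) : z * Real.exp (-z) ≤ 1 := by
  have h1 : z ≤ Real.exp z := by
    have := Real.add_one_le_exp z; linarith
  calc z * Real.exp (-z) ≤ Real.exp z * Real.exp (-z) :=
        mul_le_mul_of_nonneg_right h1 (Real.exp_pos _).le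
    _ = 1 := by rw [← Real.exp_add]; simp

/-- the final numerical inequality. -/
theorem final_le (z : ℝ) (hz : 0 < z) :
    (1 + Real.pi * (3 * z + 2 * (1 / z) + 3 / 2)) *
      Real.exp (-Real.pi * (3 / 4 * z + 2 / 3 * (1 / z))) ≤ 24 * Real.exp (-(z + 1 / z)) := by
  have hpi := Real.pi_pos
  have h3 := Real.pi_gt_three
  have h4 : Real.pi < 3.15 := Real.pi_lt_d2
  have hw : 0 < 1 / z := by positivity
  set w := 1 / z with hwdef
  have h5 : Real.exp (-Real.pi * (3 / 4 * z + 2 / 3 * w))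
      ≤ Real.exp (-(z + w)) * (Real.exp (-z) * Real.exp (-w)) := by
    rw [← Real.exp_add, ← Real.exp_add]
    apply Real.exp_le_exp.mpr
    nlinarith
  have h6 : (1 + Real.pi * (3 * z + 2 * w + 3 / 2)) ≤ 6 + 9.5 * z + 6.5 * w := by
    nlinarith
  have h7 : (6 + 9.5 * z + 6.5 * w) * (Real.exp (-z) * Real.exp (-w)) ≤ 24 := by
    have a1 := zexp_le z
    have a2 := zexp_le w
    have b1 : Real.exp (-z) ≤ 1 := Real.exp_le_one_iff.mpr (by linarith)
    have b2 : Real.exp (-w) ≤ 1 := Real.exp_le_one_iff.mpr (by linarith)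
    have c1 := Real.exp_pos (-z)
    have c2 := Real.exp_pos (-w)
    have d1 : z * Real.exp (-z) * Real.exp (-w) ≤ 1 := by
      calc z * Real.exp (-z) * Real.exp (-w) ≤ 1 * 1 :=
            mul_le_mul a1 b2 c2.le (by norm_num)
        _ = 1 := by norm_num
    have d2 : w * Real.exp (-w) * Real.exp (-z) ≤ 1 := by
      calc w * Real.exp (-w) * Real.exp (-z) ≤ 1 * 1 :=
            mul_le_mul a2 b1 c1.le (by norm_num)
        _ = 1 := by norm_num
    have d3 : Real.exp (-z) * Real.exp (-w) ≤ 1 := by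
      calc Real.exp (-z) * Real.exp (-w) ≤ 1 * 1 := mul_le_mul b1 b2 c2.le (by norm_num)
        _ = 1 := by norm_num
    nlinarith
  have h8 : 0 ≤ 6 + 9.5 * z + 6.5 * w := by positivity
  calc (1 + Real.pi * (3 * z + 2 * w + 3 / 2)) * Real.exp (-Real.pi * (3 / 4 * z + 2 / 3 * w))
      ≤ (6 + 9.5 * z + 6.5 * w) * (Real.exp (-(z + w)) * (Real.exp (-z) * Real.exp (-w))) :=
        mul_le_mul h6 h5 (Real.exp_pos _).le h8
    _ = ((6 + 9.5 * z + 6.5 * w) * (Real.exp (-z) * Real.exp (-w))) * Real.exp (-(z + w)) := by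
        ring
    _ ≤ 24 * Real.exp (-(z + w)) := mul_le_mul_of_nonneg_right h7 (Real.exp_pos _).le

theorem wb (hY : YfactStatement) (hX : XfactStatement) : WbStatement := by
  refine ⟨24, by norm_num, ?_⟩
  intro N xi j hN hNxi hxi
  have hpi := Real.pi_pos
  have hN0 : 0 < N := by linarith
  have hxi0 : 0 < xi := by linarith
  set s : ℝ := Real.sqrt xi with hs
  have hs0 : 0 < s := Real.sqrt_pos.mpr hxi0
  have hss : s ^ 2 = xi := Real.sq_sqrt hxi0.le
  set X : ℝ := XX N (2 * s) with hXdef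
  obtain ⟨hX0, -, hXt, hNX, hX3, hX128⟩ := hX N (2 * s) hN0 (by positivity)
  have hX128' : X ≤ 1.28 * (2 * s) := hX128 (by nlinarith)
  rw [← hXdef] at hX0 hXt hNX hX3
  have hX1 : 1 ≤ X := by nlinarith
  set R : ℝ := Real.sqrt ((2 : ℝ) ^ j) with hR
  have hR1 : 1 ≤ R := by
    rw [hR]
    apply Real.one_le_sqrt.mpr
    exact one_le_pow₀ (by norm_num)
  have hRR : R ^ 2 = (2 : ℝ) ^ j := Real.sq_sqrt (by positivity)
  obtain ⟨hY1, hY2⟩ := hY N hN0
  -- basic bounds for the auxiliary function on the block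
  have hYb : ∀ m : ℕ, 2 ^ j ≤ m → m < 2 ^ (j + 1) →
      2 * R ≤ YY N m ∧ YY N m ≤ 2.95 * R ∧ YY N m - 2 * Real.sqrt m ≤ 1 / (16 * N ^ 2) := by
    intro m hm1 hm2
    have hm1' : (2 : ℝ) ^ j ≤ (m : ℝ) := by exact_mod_cast hm1
    have hm2' : (m : ℝ) ≤ 2 * (2 : ℝ) ^ j := by
      have : (m : ℝ) ≤ (2 : ℝ) ^ (j + 1) := by exact_mod_cast hm2.le
      rw [pow_succ] at this
      linarith
    have h2j : (1 : ℝ) ≤ (2 : ℝ) ^ j := one_le_pow₀ (by norm_num)
    have hm0 : (0 : ℝ) < m := by linarith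
    have hmge : (1 : ℝ) ≤ m := by linarith
    obtain ⟨_, -, hc, hd⟩ := hY1 m hm0
    have hsm1 : 1 ≤ Real.sqrt m := Real.one_le_sqrt.mpr hmge
    have hRm : R ≤ Real.sqrt m := Real.sqrt_le_sqrt hm1'
    have hmR : Real.sqrt m ≤ 1.42 * R := by
      rw [Real.sqrt_le_left (by positivity)]
      have : (1.42 * R) ^ 2 = 2.0164 * (2 : ℝ) ^ j := by rw [mul_pow, hRR]; norm_num
      rw [this]
      nlinarith
    have hd' : YY N m - 2 * Real.sqrt m ≤ 1 / (16 * N ^ 2) := by
      refine hd.trans ?_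
      apply one_div_le_one_div_of_le (by positivity)
      have : (1 : ℝ) ≤ (m : ℝ) * Real.sqrt m := by nlinarith
      have h16 : 0 ≤ 16 * N ^ 2 := by positivity
      nlinarith
    have hd2 : 1 / (16 * N ^ 2) ≤ 1 / 16 := by
      apply one_div_le_one_div_of_le (by norm_num)
      nlinarith
    refine ⟨by linarith, ?_, hd'⟩
    have : (1 : ℝ) / 16 ≤ 0.0625 * R := by nlinarith
    linarith
  -- the functions
  set zz : ℕ → ℝ := fun m => N * YY N m / X with hzz
  set pp : ℕ → ℝ := fun m => (X - 2 * s) * YY N m with hpp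
  set qq : ℕ → ℝ := fun m => 2 * s * (YY N m - 2 * Real.sqrt m) with hqq
  set rr : ℕ → ℝ := fun m => 1 / (X * YY N m) with hrr
  set z : ℝ := N * R / s with hz
  have hz0 : 0 < z := by positivity
  have hg : ∀ m : ℕ, EE N X m * e (-(2 * s * Real.sqrt m))
      = ((h0 (zz m) : ℝ) : ℂ) * e ((pp m + qq m - rr m) / 2) := by
    intro m
    unfold EE
    rw [mul_assoc, ← e_add]
    congr 2
    simp only [hpp, hqq, hrr]
    ring
  have hzb : ∀ m : ℕ, 2 ^ j ≤ m → m < 2 ^ (j + 1) → 3 / 4 * z ≤ zz m ∧ zz m ≤ 3 / 2 * z := by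
    intro m hm1 hm2
    obtain ⟨h1, h2, -⟩ := hYb m hm1 hm2
    constructor
    · simp only [hzz, hz]
      rw [le_div_iff₀ hX0]
      have : 3 / 4 * (N * R / s) * X ≤ 3 / 4 * (N * R / s) * (1.28 * (2 * s)) :=
        mul_le_mul_of_nonneg_left hX128' (by positivity)
      refine this.trans ?_
      have h3 : 3 / 4 * (N * R / s) * (1.28 * (2 * s)) = 1.92 * (N * R) := by
        field_simp
        norm_num
      rw [h3]
      nlinarith [mul_pos hN0 (lt_of_lt_of_le one_pos hR1)]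
    · simp only [hzz, hz]
      rw [div_le_iff₀ hX0]
      have : 3 / 2 * (N * R / s) * (2 * s) ≤ 3 / 2 * (N * R / s) * X :=
        mul_le_mul_of_nonneg_left hXt (by positivity)
      refine le_trans ?_ this
      have h3 : 3 / 2 * (N * R / s) * (2 * s) = 3 * (N * R) := by
        field_simp
      rw [h3]
      nlinarith [mul_pos hN0 (lt_of_lt_of_le one_pos hR1)]
  set A : ℝ := Real.exp (-Real.pi * (3 / 4 * z + 2 / 3 * (1 / z))) with hA
  have hA0 : 0 < A := Real.exp_pos _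
  have hAb : ∀ m : ℕ, 2 ^ j ≤ m → m < 2 ^ (j + 1) → h0 (zz m) ≤ A := by
    intro m hm1 hm2
    obtain ⟨h1, h2⟩ := hzb m hm1 hm2
    have h3 : 0 < zz m := by nlinarith
    have h4 : 2 / 3 * (1 / z) ≤ 1 / zz m := by
      have : 1 / (3 / 2 * z) ≤ 1 / zz m := one_div_le_one_div_of_le h3 h2
      refine le_trans (le_of_eq ?_) this
      field_simp
    unfold h0
    rw [hA]
    apply Real.exp_le_exp.mpr
    nlinarith
  have hlt : (2 : ℕ) ^ j ≤ 2 ^ (j + 1) - 1 := by
    have : (1 : ℕ) ≤ 2 ^ j := Nat.one_le_two_pow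
    rw [pow_succ]; omega
  have hend : (2 : ℕ) ^ (j + 1) - 1 < 2 ^ (j + 1) := by
    have : (1 : ℕ) ≤ 2 ^ (j + 1) := Nat.one_le_two_pow
    omega
  have hstart : (2 : ℕ) ^ j < 2 ^ (j + 1) := lt_of_le_of_lt hlt hend
  have hvar := sum_var_le (fun m => EE N X m * e (-(2 * s * Real.sqrt m)))
    (fun m => Real.pi * A * (zz m - 1 / zz m + pp m - qq m - rr m)) (2 ^ j) (2 ^ (j + 1) - 1) hlt
    (by
      intro m hm1 hm2
      have hm2' : m < 2 ^ (j + 1) := by omega
      have hm3' : m + 1 < 2 ^ (j + 1) := by omega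
      rw [hg (m + 1), hg m]
      have hm0 : (0 : ℝ) < m := by
        have : 0 < m := lt_of_lt_of_le (by positivity) hm1
        exact_mod_cast this
      obtain ⟨hYm, hYd⟩ := hY2 (m : ℝ) ((m + 1 : ℕ) : ℝ) hm0 (by push_cast; linarith)
      have hYp : 0 < YY N m := (hY1 m hm0).1
      have hzm : 0 < zz m := by
        simp only [hzz]; positivity
      apply step_le A _ _ _ _ _ _ _ _ hzm
      · simp only [hzz]
        gcongr
      · simp only [hpp]
        exact mul_le_mul_of_nonneg_left hYm (by linarith)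
      · simp only [hqq]
        exact mul_le_mul_of_nonneg_left hYd (by positivity)
      · simp only [hrr]
        apply one_div_le_one_div_of_le (by positivity)
        exact mul_le_mul_of_nonneg_left hYm hX0.le
      · exact hAb m hm1 hm2'
      · exact hAb (m + 1) (by omega) hm3')
  unfold BVn
  have hfirst : ‖EE N X ((2 ^ (j + 1) - 1 : ℕ) : ℝ) * e (-(2 * s * Real.sqrt ((2 ^ (j + 1) - 1 : ℕ) : ℝ)))‖
      ≤ A := by
    rw [hg, norm_mul, norm_e, mul_one, Complex.norm_real, Real.norm_eq_abs,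
      abs_of_pos (show 0 < h0 _ from Real.exp_pos _)]
    exact hAb _ hlt hend
  refine (add_le_add hfirst hvar).trans ?_
  set me : ℕ := 2 ^ (j + 1) - 1 with hme
  set ms : ℕ := 2 ^ j with hms
  obtain ⟨hYe1, hYe2, hYe3⟩ := hYb me hlt hend
  obtain ⟨hYs1, hYs2, hYs3⟩ := hYb ms le_rfl hstart
  obtain ⟨hze1, hze2⟩ := hzb me hlt hend
  obtain ⟨hzs1, hzs2⟩ := hzb ms le_rfl hstart
  have hme0 : (0 : ℝ) < me := by
    have : 0 < me := lt_of_lt_of_le (by positivity) hlt
    exact_mod_cast this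
  have hms0 : (0 : ℝ) < ms := by
    have : 0 < ms := by positivity
    exact_mod_cast this
  have hYep : 0 < YY N me := (hY1 me hme0).1
  have hYsp : 0 < YY N ms := (hY1 ms hms0).1
  have hzep : 0 < zz me := by nlinarith
  have hzsp : 0 < zz ms := by nlinarith
  have e1 : 0 ≤ 1 / zz me := by positivity
  have e2 : 1 / zz ms ≤ 4 / 3 * (1 / z) := by
    have : 1 / zz ms ≤ 1 / (3 / 4 * z) := one_div_le_one_div_of_le (by positivity) hzs1
    refine this.trans (le_of_eq ?_)
    field_simp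
  have e3 : pp me ≤ 3 / 2 * z := by
    refine le_trans ?_ hze2
    simp only [hpp, hzz]
    rw [le_div_iff₀ hX0]
    have h1 : (X - 2 * s) * X ≤ N := by
      have h2 : (X - 2 * s) * X * X ^ 2 ≤ N * X ^ 2 := by
        calc (X - 2 * s) * X * X ^ 2 = (X - 2 * s) * X ^ 3 := by ring
          _ ≤ N ^ 2 := hX3
          _ = N * N := by ring
          _ ≤ N * X ^ 2 := mul_le_mul_of_nonneg_left hNX hN0.le
      exact le_of_mul_le_mul_right h2 (by positivity)
    calc (X - 2 * s) * YY N me * X = ((X - 2 * s) * X) * YY N me := by ring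
      _ ≤ N * YY N me := mul_le_mul_of_nonneg_right h1 hYep.le
  have e4 : 0 ≤ pp ms := by
    simp only [hpp]
    exact mul_nonneg (by linarith) hYsp.le
  have e5 : 0 ≤ qq me := by
    simp only [hqq]
    have := (hY1 me hme0).2.2.1
    exact mul_nonneg (by positivity) (by linarith)
  have e6 : qq ms ≤ 1 := by
    simp only [hqq]
    have h1 : 2 * s * (YY N ms - 2 * Real.sqrt ms) ≤ 2 * s * (1 / (16 * N ^ 2)) :=
      mul_le_mul_of_nonneg_left hYs3 (by positivity)
    refine h1.trans ?_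
    have h2 : s ≤ 8 * N ^ 2 := by
      have h3 : s ^ 2 ≤ (8 * N ^ 2) ^ 2 := by
        rw [hss]
        have h4 : N ^ 3 ≤ N ^ 4 := pow_le_pow_right₀ hN (by norm_num)
        nlinarith [pow_pos hN0 4]
      exact le_of_sq_le_sq h3 (by positivity)
    rw [mul_one_div, div_le_one (by positivity)]
    linarith
  have e7 : 0 ≤ rr me := by
    simp only [hrr]; positivity
  have e8 : rr ms ≤ 1 / 2 := by
    simp only [hrr]
    apply one_div_le_one_div_of_le (by norm_num)
    nlinarith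
  have hlast := final_le z hz0
  rw [← hA] at hlast
  have hrhs : -(N * R / s + s / (N * R)) = -(z + 1 / z) := by
    rw [hz]; congr 2; rw [one_div_div]
  rw [hrhs]
  refine le_trans ?_ hlast
  have hsum : (zz me - 1 / zz me + pp me - qq me - rr me)
      - (zz ms - 1 / zz ms + pp ms - qq ms - rr ms) ≤ 3 * z + 2 * (1 / z) + 3 / 2 := by
    have : 0 < 1 / z := by positivity
    linarith
  have hpa : 0 ≤ Real.pi * A := by positivity
  have hmul := mul_le_mul_of_nonneg_left hsum hpa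
  calc A + (Real.pi * A * (zz me - 1 / zz me + pp me - qq me - rr me)
        - Real.pi * A * (zz ms - 1 / zz ms + pp ms - qq ms - rr ms))
      = A + Real.pi * A * ((zz me - 1 / zz me + pp me - qq me - rr me)
      - (zz ms - 1 / zz ms + pp ms - qq ms - rr ms)) := by ring
    _ ≤ A + Real.pi * A * (3 * z + 2 * (1 / z) + 3 / 2) := by linarith
    _ = (1 + Real.pi * (3 * z + 2 * (1 / z) + 3 / 2)) * A := by ring

end Pool.Agent.Lib.MP_3ee548_nt.RS.H84
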